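import Mathlib

set_option autoImplicit false

namespace Pool.Agent.Work.MP_815b5d_co

open Polynomial Finset

variable {F : Type*} [Field F] [DecidableEq F]

/-- The weights of the divided difference on `s` also compute the top coefficient
in the transported variable. -/
lemma weight_moment (k : ℕ) (s : Finset F) (σ : F → F) (hs : s.card = k + 1)
    (hinj : Set.InjOn σ s) (hch : ∀ i ≤ k, ((k.choose i : ℕ) : F) ≠ 0)
    (h : ∀ a ∈ s, ∀ b ∈ s, (a - b) ^ k = (σ a - σ b) ^ k) (i : ℕ) (hi : i ≤ k) :
    ∑ a ∈ s, (∏ b ∈ s.erase a, (a - b))⁻¹ * σ a ^ i = if i = k then 1 else 0 := by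
  classical
  set w : F → F := fun a => (∏ b ∈ s.erase a, (a - b))⁻¹ with hw
  -- the top coefficient formula in the original variable
  have h1 : ∀ b ∈ s, ∑ a ∈ s, w a * (σ a - σ b) ^ k = 1 := by
    intro b hb
    have hdeg : ((X - C b : F[X]) ^ k).degree < s.card := by
      rw [degree_pow, degree_X_sub_C, hs]
      simp only [nsmul_eq_mul, mul_one]
      exact_mod_cast Nat.lt_succ_self k
    have := Lagrange.coeff_eq_sum (s := s) (v := id) (fun x _ y _ hxy => hxy) hdeg
    rw [hs, Nat.add_sub_cancel] at this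
    have hc : ((X - C b : F[X]) ^ k).coeff k = 1 := by
      have hm : ((X - C b : F[X]) ^ k).Monic := (monic_X_sub_C b).pow k
      have hn : ((X - C b : F[X]) ^ k).natDegree = k := by
        rw [natDegree_pow, natDegree_X_sub_C, mul_one]
      have := hm.coeff_natDegree
      rwa [hn] at this
    rw [hc] at this
    rw [this]
    refine Finset.sum_congr rfl fun a ha => ?_
    simp only [id, hw]
    rw [← h a ha b hb, eval_pow, eval_sub, eval_X, eval_C, div_eq_mul_inv, mul_comm]
  -- the polynomial Q is identically one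
  set Q : F[X] := ∑ a ∈ s, C (w a) * (C (σ a) - X) ^ k with hQ
  have hQ1 : Q = 1 := by
    refine Polynomial.eq_of_degrees_lt_of_eval_index_eq (s := s) (v := σ) hinj ?_ ?_ ?_
    · refine lt_of_le_of_lt (degree_sum_le _ _) ?_
      rw [Finset.sup_lt_iff (by rw [hs]; exact WithBot.bot_lt_coe _)]
      intro a _
      refine lt_of_le_of_lt (degree_mul_le _ _) ?_
      refine lt_of_le_of_lt (add_le_add degree_C_le (degree_pow_le _ _)) ?_
      have : (C (σ a) - X : F[X]).degree ≤ 1 := by
        refine (degree_sub_le _ _).trans ?_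
        rw [degree_X]
        exact max_le (degree_C_le.trans (by exact_mod_cast zero_le_one)) le_rfl
      refine lt_of_le_of_lt (add_le_add le_rfl (nsmul_le_nsmul_right this k)) ?_
      rw [hs]
      simp only [zero_add, nsmul_eq_mul, mul_one]
      exact_mod_cast Nat.lt_succ_self k
    · rw [degree_one, hs]
      exact_mod_cast Nat.succ_pos k
    · intro b hb
      rw [hQ, eval_finset_sum, eval_one]
      rw [← h1 b hb]
      refine Finset.sum_congr rfl fun a _ => ?_
      simp
  -- compare coefficients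
  have hcoeff : ∀ j ≤ k, Q.coeff j = (-1) ^ j * (k.choose j : F) *
      ∑ a ∈ s, w a * σ a ^ (k - j) := by
    intro j hj
    rw [hQ, finset_sum_coeff, Finset.mul_sum]
    refine Finset.sum_congr rfl fun a _ => ?_
    rw [coeff_C_mul]
    have : (C (σ a) - X : F[X]) ^ k = (-1) ^ k * (X + C (-σ a)) ^ k := by
      rw [← mul_pow]; congr 1; rw [C_neg]; ring
    rw [this]
    have h2 : ((-1 : F[X]) ^ k) = C ((-1) ^ k) := by simp
    rw [h2, coeff_C_mul, coeff_X_add_C_pow]
    have h3 : (-σ a) ^ (k - j) = (-1) ^ (k - j) * σ a ^ (k - j) := by rw [neg_pow]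
    rw [h3]
    have h4 : ((-1 : F)) ^ k * (-1) ^ (k - j) = (-1) ^ j := by
      rw [← pow_add]
      have : k + (k - j) = j + 2 * (k - j) := by omega
      rw [this, pow_add, pow_mul]
      simp
    calc w a * ((-1) ^ k * ((-1) ^ (k - j) * σ a ^ (k - j) * (k.choose j : F)))
        = ((-1 : F) ^ k * (-1) ^ (k - j)) * (k.choose j : F) * (w a * σ a ^ (k - j)) := by ring
      _ = _ := by rw [h4]
  have hk := hcoeff (k - i) (Nat.sub_le _ _)
  rw [Nat.sub_sub_self hi, hQ1] at hk
  have hne : ((-1 : F)) ^ (k - i) * (k.choose (k - i) : F) ≠ 0 :=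
    mul_ne_zero (pow_ne_zero _ (by simp)) (hch _ (Nat.sub_le _ _))
  by_cases hik : i = k
  · subst hik
    simp only [Nat.sub_self, coeff_one_zero, pow_zero, Nat.choose_zero_right, Nat.cast_one,
      one_mul] at hk
    rw [if_pos rfl, ← hk]
  · rw [if_neg hik]
    have hz : (1 : F[X]).coeff (k - i) = 0 := by
      rw [coeff_one, if_neg (by omega)]
    rw [hz] at hk
    exact (mul_eq_zero.mp hk.symm).resolve_left hne

/-- Key lemma: on a set of `k + 1` points the products of differences agree. -/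
lemma prod_eq (k : ℕ) (s : Finset F) (σ : F → F) (hs : s.card = k + 1)
    (hinj : Set.InjOn σ s) (hch : ∀ i ≤ k, ((k.choose i : ℕ) : F) ≠ 0)
    (h : ∀ a ∈ s, ∀ b ∈ s, (a - b) ^ k = (σ a - σ b) ^ k) (a : F) (ha : a ∈ s) :
    ∏ b ∈ s.erase a, (a - b) = ∏ b ∈ s.erase a, (σ a - σ b) := by
  classical
  set w : F → F := fun a => (∏ b ∈ s.erase a, (a - b))⁻¹ with hw
  have hmom := weight_moment k s σ hs hinj hch h
  -- top coefficient in the transported variable
  have htop : ∀ P : F[X], P.natDegree ≤ k → ∑ x ∈ s, w x * P.eval (σ x) = P.coeff k := by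
    intro P hP
    have : ∀ x, P.eval (σ x) = ∑ i ∈ Finset.range (k + 1), P.coeff i * σ x ^ i := by
      intro x
      exact eval_eq_sum_range' (Nat.lt_succ_of_le hP) _
    simp_rw [this, Finset.mul_sum]
    rw [Finset.sum_comm]
    have h2 : ∀ i ∈ Finset.range (k + 1), ∑ x ∈ s, w x * (P.coeff i * σ x ^ i)
        = P.coeff i * (if i = k then 1 else 0) := by
      intro i hi
      rw [← hmom i (Nat.lt_succ_iff.mp (Finset.mem_range.mp hi)), Finset.mul_sum]
      refine Finset.sum_congr rfl fun x _ => ?_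
      simp only [hw]
      ring
    rw [Finset.sum_congr rfl h2]
    simp
  set P : F[X] := ∏ b ∈ s.erase a, (X - C (σ b)) with hP
  have hcard : (s.erase a).card = k := by rw [Finset.card_erase_of_mem ha, hs]; rfl
  have hdeg : P.natDegree = k := by
    rw [hP, natDegree_prod_of_monic _ _ (fun b _ => monic_X_sub_C _)]
    simp [hcard]
  have hmon : P.Monic := monic_prod_of_monic _ _ (fun b _ => monic_X_sub_C _)
  have h3 := htop P hdeg.le
  have hc : P.coeff k = 1 := by
    have := hmon.coeff_natDegree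
    rwa [hdeg] at this
  rw [hc] at h3
  have hev : ∀ x ∈ s, x ≠ a → w x * P.eval (σ x) = 0 := by
    intro x hx hxa
    rw [hP, eval_prod]
    rw [Finset.prod_eq_zero (Finset.mem_erase.mpr ⟨hxa, hx⟩) (by simp), mul_zero]
  rw [Finset.sum_eq_single_of_mem a ha hev] at h3
  have hPa : P.eval (σ a) = ∏ b ∈ s.erase a, (σ a - σ b) := by
    rw [hP, eval_prod]
    simp
  rw [hPa] at h3
  have hne : ∏ b ∈ s.erase a, (a - b) ≠ 0 := by
    rw [Finset.prod_ne_zero_iff]
    intro b hb
    exact sub_ne_zero.mpr (Finset.ne_of_mem_erase hb).symm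
  simp only [hw] at h3
  field_simp at h3
  rw [h3]

/-- Two differences issuing from one point have the same ratio. -/
lemma ratio_eq (k : ℕ) (hk : 1 ≤ k) (s : Finset F) (σ : F → F) (hs : k + 2 ≤ s.card)
    (hinj : Set.InjOn σ s) (hch : ∀ i ≤ k, ((k.choose i : ℕ) : F) ≠ 0)
    (h : ∀ a ∈ s, ∀ b ∈ s, (a - b) ^ k = (σ a - σ b) ^ k)
    (a b c : F) (ha : a ∈ s) (hb : b ∈ s) (hc : c ∈ s) (hab : a ≠ b) (hac : a ≠ c)
    (hbc : b ≠ c) :
    (a - b) * (σ a - σ c) = (σ a - σ b) * (a - c) := by
  classical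
  have h3 : ({a, b, c} : Finset F) ⊆ s := by
    intro x hx
    simp only [Finset.mem_insert, Finset.mem_singleton] at hx
    rcases hx with rfl | rfl | rfl <;> assumption
  have hcard3 : ({a, b, c} : Finset F).card = 3 := Finset.card_eq_three.mpr
    ⟨a, b, c, hab, hac, hbc, rfl⟩
  have hcard : k - 1 ≤ (s \ {a, b, c}).card := by
    rw [Finset.card_sdiff_of_subset h3, hcard3]; omega
  obtain ⟨t, hts, htc⟩ := Finset.exists_subset_card_eq hcard
  have hta : a ∉ t := fun hh => by
    have := hts hh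
    simp at this
  have htb : b ∉ t := fun hh => by
    have := hts hh
    simp at this
  have htcc : c ∉ t := fun hh => by
    have := hts hh
    simp at this
  have hts' : t ⊆ s := fun x hx => (Finset.mem_sdiff.mp (hts hx)).1
  have key : ∀ y ∈ s, y ∉ t → a ≠ y →
      (a - y) * ∏ x ∈ t, (a - x) = (σ a - σ y) * ∏ x ∈ t, (σ a - σ x) := by
    intro y hy hyt hay
    set u : Finset F := insert a (insert y t) with hu
    have hat : a ∉ insert y t := by
      rw [Finset.mem_insert]; push_neg; exact ⟨hay, hta⟩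
    have hus : u ⊆ s := by
      intro x hx
      rw [hu, Finset.mem_insert, Finset.mem_insert] at hx
      rcases hx with rfl | rfl | hx
      · exact ha
      · exact hy
      · exact hts' hx
    have huc : u.card = k + 1 := by
      rw [hu, Finset.card_insert_of_notMem hat, Finset.card_insert_of_notMem hyt, htc]; omega
    have := prod_eq k u σ huc (hinj.mono (by exact_mod_cast hus)) hch
      (fun x hx z hz => h x (hus hx) z (hus hz)) a (Finset.mem_insert_self _ _)
    rw [hu, Finset.erase_insert hat, Finset.prod_insert hyt, Finset.prod_insert hyt] at this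
    exact this
  have h1 := key b hb htb hab
  have h2 := key c hc htcc hac
  have hP : ∏ x ∈ t, (a - x) ≠ 0 := by
    rw [Finset.prod_ne_zero_iff]
    intro x hx hh
    exact hta (by rw [sub_eq_zero.mp hh]; exact hx)
  have hP' : ∏ x ∈ t, (σ a - σ x) ≠ 0 := by
    rw [Finset.prod_ne_zero_iff]
    intro x hx hh
    exact hta (by rw [hinj ha (hts' hx) (sub_eq_zero.mp hh)]; exact hx)
  set P := ∏ x ∈ t, (a - x)
  set P' := ∏ x ∈ t, (σ a - σ x)
  have : ((a - b) * (σ a - σ c)) * (P * P') = ((σ a - σ b) * (a - c)) * (P * P') := by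
    calc ((a - b) * (σ a - σ c)) * (P * P') = ((a - b) * P) * ((σ a - σ c) * P') := by ring
      _ = ((σ a - σ b) * P') * ((a - c) * P) := by rw [h1, h2]
      _ = _ := by ring
  exact mul_right_cancel₀ (mul_ne_zero hP hP') this

/-- A set of at least `k + 2` points with `(a - b)^k = (σ a - σ b)^k` is collinear. -/
lemma collinear (k : ℕ) (hk : 1 ≤ k) (s : Finset F) (σ : F → F) (hs : k + 2 ≤ s.card)
    (hinj : Set.InjOn σ s) (hch : ∀ i ≤ k, ((k.choose i : ℕ) : F) ≠ 0)
    (h : ∀ a ∈ s, ∀ b ∈ s, (a - b) ^ k = (σ a - σ b) ^ k) (a b : F) (ha : a ∈ s) (hb : b ∈ s)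
    (hab : a ≠ b) (x : F) (hx : x ∈ s) :
    (σ x - σ a) * (a - b) = (σ a - σ b) * (x - a) := by
  by_cases hxa : x = a
  · subst hxa; simp
  by_cases hxb : x = b
  · subst hxb; ring
  have := ratio_eq k hk s σ hs hinj hch h a b x ha hb hx hab (Ne.symm hxa) (Ne.symm hxb)
  linear_combination -this

end Pool.Agent.Work.MP_815b5d_co
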