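import Pool.Agent.Work.MP_815b5d_co.Core

set_option autoImplicit false

namespace Pool.Agent.Work.MP_815b5d_co

open Polynomial Finset

section

variable {L : Type} [Field L]

lemma choose_ne_zero (p : ℕ) [Fact p.Prime] [CharP L p] (k : ℕ) (hk : k < p) (i : ℕ)
    (hi : i ≤ k) : ((k.choose i : ℕ) : L) ≠ 0 := by
  rw [Ne, CharP.cast_eq_zero_iff L p]
  intro hdvd
  have h1 : k.choose i ∣ k.factorial :=
    ⟨i.factorial * (k - i).factorial, by rw [← mul_assoc, Nat.choose_mul_factorial_mul_factorial hi]⟩
  have h2 := (Nat.Prime.dvd_factorial (Fact.out : p.Prime)).mp (hdvd.trans h1)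
  omega

/-- A clique with at least `(p+5)/2` points lies on a line of square direction, hence a maximal
clique of this size has exactly `p` points. -/
lemma card_eq_of_large [Fintype L] (p : ℕ) (hp : p.Prime) (hp2 : p ≠ 2) (hL : Fintype.card L = p ^ 2)
    (s : Finset L) (hcl : ∀ x ∈ s, ∀ y ∈ s, x ≠ y → IsSquare (x - y))
    (hmax : ∀ v : L, v ∉ s → ∃ u ∈ s, ¬ IsSquare (v - u))
    (hcard : (p + 1) / 2 + 2 ≤ s.card) : s.card = p := by
  classical
  have : Fact p.Prime := ⟨hp⟩
  have hchar : CharP L p := by
    have h1 : CharP L (ringChar L) := inferInstance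
    obtain ⟨n, hn, hcn⟩ := FiniteField.card L (ringChar L)
    rw [hL] at hcn
    have : p ∣ (ringChar L) ^ (n : ℕ) := by rw [← hcn]; exact dvd_pow_self _ (by norm_num)
    have h2 := (Nat.prime_dvd_prime_iff_eq hp hn).mp (hp.dvd_of_dvd_pow this)
    rw [h2]; exact h1
  have hodd : p % 2 = 1 := by
    rcases hp.eq_two_or_odd with h | h
    · exact absurd h hp2
    · exact h
  have hp3 : 3 ≤ p := by have := hp.two_le; omega
  set k := (p + 1) / 2 with hk
  have hk2 : 2 * k = p + 1 := by omega
  set σ : L → L := fun x => x ^ p with hσ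
  have hσsub : ∀ a b : L, σ a - σ b = (a - b) ^ p := by
    intro a b; simp only [hσ]; rw [sub_pow_char]
  have hpp : ∀ x : L, (x ^ p) ^ p = x := by
    intro x
    rw [← pow_mul, ← sq, ← hL]; exact FiniteField.pow_card x
  have hinj : Function.Injective σ := fun x y hxy => by
    have : (x ^ p) ^ p = (y ^ p) ^ p := by simp only [hσ] at hxy; rw [hxy]
    rwa [hpp, hpp] at this
  -- the basic relation
  have hrel : ∀ a ∈ s, ∀ b ∈ s, (a - b) ^ k = (σ a - σ b) ^ k := by
    intro a ha b hb
    by_cases hab : a = b
    · subst hab; simp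
    obtain ⟨z, hz⟩ := hcl a ha b hb hab
    rw [hσsub, hz]
    calc (z * z) ^ k = z ^ (2 * k) := by rw [← sq, ← pow_mul]
      _ = z ^ p * z := by rw [hk2, pow_succ]
      _ = z ^ p * (z ^ p) ^ p := by rw [hpp]
      _ = (z ^ p) ^ (2 * k) := by rw [hk2, pow_succ, mul_comm]
      _ = ((z * z) ^ p) ^ k := by rw [← sq, ← pow_mul, ← pow_mul, ← pow_mul]; ring_nf
  have hch : ∀ i ≤ k, ((k.choose i : ℕ) : L) ≠ 0 :=
    fun i hi => choose_ne_zero p k (by omega) i hi
  have hcard2 : 2 ≤ s.card := by omega
  obtain ⟨a, ha, b, hb, hab⟩ := Finset.one_lt_card.mp (by omega : 1 < s.card)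
  have hcol := collinear k (by omega) s σ hcard hinj.injOn hch hrel a b ha hb hab
  have hsub : a - b ≠ 0 := sub_ne_zero.mpr hab
  obtain ⟨z, hz⟩ := hcl a ha b hb hab
  have hz0 : z ≠ 0 := by rintro rfl; exact hsub (by rw [hz]; ring)
  -- the line
  have hline : ∀ x : L, (σ x - σ a) * (a - b) = (σ a - σ b) * (x - a) → x ∈ s := by
    intro x hx
    by_contra hxs
    obtain ⟨u, hu, hnsq⟩ := hmax x hxs
    apply hnsq
    have hxu : x ≠ u := fun h => hxs (h ▸ hu)
    have hxu0 : x - u ≠ 0 := sub_ne_zero.mpr hxu
    have h1 := hcol u hu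
    have h2 : (x - u) ^ p * (a - b) = (a - b) ^ p * (x - u) := by
      have e1 := hσsub x u
      have e2 := hσsub a b
      rw [← e1, ← e2]
      linear_combination hx - h1
    set v := (x - u) / (a - b) with hv
    have hv0 : v ≠ 0 := div_ne_zero hxu0 hsub
    have hxv : x - u = v * (a - b) := by rw [hv]; field_simp
    have hvp : v ^ p = v := by
      rw [hxv, mul_pow] at h2
      have h3 : (a - b) ^ p * (a - b) ≠ 0 := mul_ne_zero (pow_ne_zero _ hsub) hsub
      have h4 : v ^ p * ((a - b) ^ p * (a - b)) = v * ((a - b) ^ p * (a - b)) := by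
        linear_combination h2
      exact mul_right_cancel₀ h3 h4
    have hvsq : IsSquare v := by
      have hF : ringChar L ≠ 2 := by
        rw [ringChar.eq L p]; exact hp2
      rw [FiniteField.isSquare_iff hF hv0, hL]
      have h5 : v ^ (p - 1) = 1 := by
        have : v ^ (p - 1) * v = 1 * v := by
          rw [← pow_succ, Nat.sub_add_cancel (by omega), hvp, one_mul]
        exact mul_right_cancel₀ hv0 this
      have h6 : p ^ 2 / 2 = (p - 1) * k := by
        obtain ⟨m, hm⟩ : ∃ m, p = 2 * m + 1 := ⟨p / 2, by omega⟩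
        have hkm : k = m + 1 := by omega
        rw [hkm, hm]
        have : (2 * m + 1) ^ 2 = 2 * ((2 * m + 1 - 1) * (m + 1)) + 1 := by
          simp only [Nat.add_sub_cancel]; ring
        rw [this]; omega
      rw [h6, pow_mul, h5, one_pow]
    obtain ⟨y, hy⟩ := hvsq
    exact ⟨y * z, by rw [hxv, hz, hy]; ring⟩
  apply le_antisymm
  · -- at most p points, as roots of a polynomial
    have hp1 : 1 < p := by omega
    set g : L[X] := X ^ p - (C ((σ a - σ b) / (a - b)) * X + C (σ a - (σ a - σ b) / (a - b) * a))
      with hg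
    have hlin : (C ((σ a - σ b) / (a - b)) * X + C (σ a - (σ a - σ b) / (a - b) * a) : L[X]).degree
        < (p : WithBot ℕ) := by
      refine lt_of_le_of_lt degree_linear_le ?_
      exact_mod_cast hp1
    have hgdeg : g.natDegree = p := by
      rw [hg]
      have hd : (X ^ p - (C ((σ a - σ b) / (a - b)) * X
          + C (σ a - (σ a - σ b) / (a - b) * a)) : L[X]).degree = p := by
        rw [degree_sub_eq_left_of_degree_lt (by rw [degree_X_pow]; exact hlin), degree_X_pow]
      exact natDegree_eq_of_degree_eq_some hd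
    have hg0 : g ≠ 0 := by
      intro h0; rw [h0, natDegree_zero] at hgdeg; omega
    have hsr : s ⊆ g.roots.toFinset := by
      intro x hx
      rw [Multiset.mem_toFinset, mem_roots hg0, IsRoot.def, hg]
      have h1 := hcol x hx
      simp only [eval_sub, eval_pow, eval_X, eval_add, eval_mul, eval_C]
      have : x ^ p = σ x := rfl
      rw [this]
      field_simp
      linear_combination h1
    calc s.card ≤ g.roots.toFinset.card := Finset.card_le_card hsr
      _ ≤ Multiset.card g.roots := Multiset.toFinset_card_le _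
      _ ≤ g.natDegree := card_roots' g
      _ = p := hgdeg
  · -- at least p points
    have hmap : ∀ n ∈ Finset.range p, a + (n : L) * (a - b) ∈ s := by
      intro n _
      apply hline
      have h1 : σ (a + (n : L) * (a - b)) - σ a = (n : L) * (a - b) ^ p := by
        rw [hσsub]
        have : a + (n : L) * (a - b) - a = (n : L) * (a - b) := by ring
        rw [this, mul_pow]
        congr 1
        have := map_natCast (frobenius L p) n
        rwa [frobenius_def] at this
      rw [h1, hσsub]
      ring
    have hinj2 : Set.InjOn (fun n : ℕ => a + (n : L) * (a - b)) (Finset.range p : Set ℕ) := by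
      intro n hn m hm hnm
      simp only [Finset.coe_range, Set.mem_Iio] at hn hm
      simp only [add_right_inj] at hnm
      have h2 := mul_right_cancel₀ hsub hnm
      exact CharP.natCast_injOn_Iio L p hn hm h2
    calc p = (Finset.range p).card := (Finset.card_range p).symm
      _ ≤ s.card := Finset.card_le_card_of_injOn _ hmap hinj2

end

end Pool.Agent.Work.MP_815b5d_co
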